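import Pool.Agent.V8H49.CS.Theta

set_option autoImplicit false

/-!
# Central extensions of Coxeter groups by a sign

For every Coxeter group and every sign choice the group `W'` (obtained from the Coxeter
presentation by adding a central sign `q` and replacing the relation `(st)^m = 1` by
`(st)^m = q` for the pairs of sign `-1`) is a central extension of `W` by `ℤ/2`; in particular
`q ≠ 1`.

The proof makes `W'` act on `W × ℤ/2`.  Walking from the chamber `w` to the chamber `s w`
crosses the wall `t = w⁻¹ s w`; the sign changes once for each rank two reflection subgroup `D`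
(conjugate of a dihedral parabolic of sign `-1`) for which `t` is the chosen one of the two walls
of `D` next to the identity chamber, and all the other walls of `D` separate `w` from the identity.
-/

namespace Pool.Agent.Results.MP_07fa45_al.SignExtension

open Pool.Agent.V8H49.CS

variable {B : Type*} {M : CoxeterMatrix B} {W : Type*} [Group W]

/-- A sign choice for the Coxeter system `cs`: a family `c i j` of signs such that, for all
`i ≠ j` with `m_{i,j} < ∞` (i.e. `M i j ≠ 0`), `c i j = c i' j'` whenever `g s_i g⁻¹ = s_{i'}` and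
`g s_j g⁻¹ = s_{j'}` for some `g ∈ W` (where also `i' ≠ j'` and `m_{i',j'} < ∞`), and
`c i j = c j i`. -/
structure SignChoice (cs : CoxeterSystem M W) (c : B → B → ℤˣ) : Prop where
  conj : ∀ i j i' j', i ≠ j → M i j ≠ 0 → i' ≠ j' → M i' j' ≠ 0 →
    (∃ g : W, g * cs.simple i * g⁻¹ = cs.simple i' ∧ g * cs.simple j * g⁻¹ = cs.simple j') →
    c i j = c i' j'
  symm : ∀ i j, i ≠ j → M i j ≠ 0 → c i j = c j i

/-- the generator of the free group attached to the simple reflection `s_i` -/
def fs (i : B) : FreeGroup (Option B) := FreeGroup.of (some i)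

/-- the generator of the free group attached to `q` -/
def fq : FreeGroup (Option B) := FreeGroup.of none

variable (M) in
/-- The relators of `W'`. -/
inductive Rel (c : B → B → ℤˣ) : FreeGroup (Option B) → Prop
  /-- `s² = 1` -/
  | s_sq (i : B) : Rel c (fs i ^ 2)
  /-- `q² = 1` -/
  | q_sq : Rel c (fq ^ 2)
  /-- `q s = s q` -/
  | q_comm (i : B) : Rel c (fq * fs i * (fs i * fq)⁻¹)
  /-- `(s t) ^ m_{s,t} = 1` if `c_{s,t} = 1` -/
  | one (i j : B) (hij : i ≠ j) (h0 : M i j ≠ 0) (hc : c i j = 1) :
      Rel c ((fs i * fs j) ^ M i j)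
  /-- `(s t) ^ m_{s,t} = q` if `c_{s,t} = -1` -/
  | neg (i j : B) (hij : i ≠ j) (h0 : M i j ≠ 0) (hc : c i j = -1) :
      Rel c ((fs i * fs j) ^ M i j * fq⁻¹)

variable (M) in
/-- The group `W'`. -/
abbrev W' (c : B → B → ℤˣ) : Type _ := PresentedGroup {r | Rel M c r}

/-- the element `s_i` of `W'` -/
def s' (c : B → B → ℤˣ) (i : B) : W' M c := PresentedGroup.of (some i)

/-- the element `q` of `W'` -/
def q' (c : B → B → ℤˣ) : W' M c := PresentedGroup.of none

/-! ### Relations in `W'` -/

section rels

variable (c : B → B → ℤˣ)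

theorem mk_rel {r : FreeGroup (Option B)} (h : Rel M c r) :
    (PresentedGroup.mk {r | Rel M c r} r) = 1 :=
  PresentedGroup.one_of_mem h

theorem mk_fs (i : B) : PresentedGroup.mk {r | Rel M c r} (fs i) = s' c i := rfl

theorem mk_fq : PresentedGroup.mk {r | Rel M c r} fq = q' c := rfl

theorem s_mul_self (i : B) : (s' c i : W' M c) * s' c i = 1 := by
  have h := mk_rel c (M := M) (Rel.s_sq i)
  rwa [map_pow, mk_fs, pow_two] at h

theorem q_mul_self : (q' c : W' M c) * q' c = 1 := by
  have h := mk_rel c (M := M) Rel.q_sq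
  rwa [map_pow, mk_fq, pow_two] at h

theorem q_comm (i : B) : (q' c : W' M c) * s' c i = s' c i * q' c := by
  have h := mk_rel c (M := M) (Rel.q_comm i)
  rw [map_mul, map_inv, map_mul, map_mul, mk_fq, mk_fs] at h
  exact mul_inv_eq_one.1 h

theorem rel_one {i j : B} (hij : i ≠ j) (h0 : M i j ≠ 0) (hc : c i j = 1) :
    (s' c i * s' c j : W' M c) ^ M i j = 1 := by
  have h := mk_rel c (Rel.one i j hij h0 hc)
  rwa [map_pow, map_mul, mk_fs, mk_fs] at h

theorem rel_neg {i j : B} (hij : i ≠ j) (h0 : M i j ≠ 0) (hc : c i j = -1) :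
    (s' c i * s' c j : W' M c) ^ M i j = q' c := by
  have h := mk_rel c (Rel.neg i j hij h0 hc)
  rw [map_mul, map_pow, map_mul, mk_fs, mk_fs, map_inv, mk_fq] at h
  exact mul_inv_eq_one.1 h

theorem q_central (x : W' M c) : q' c * x = x * q' c := by
  have h : x ∈ Subgroup.centralizer {(q' c : W' M c)} := by
    have h1 : Subgroup.closure (Set.range (PresentedGroup.of (rels := {r | Rel M c r}))) ≤
        Subgroup.centralizer {(q' c : W' M c)} := by
      rw [Subgroup.closure_le]
      rintro _ ⟨i, rfl⟩
      rw [SetLike.mem_coe, Subgroup.mem_centralizer_singleton_iff]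
      rcases i with _ | i
      · rfl
      · exact (q_comm c i).symm
    rw [PresentedGroup.closure_range_of] at h1
    exact h1 (Subgroup.mem_top x)
  exact (Subgroup.mem_centralizer_singleton_iff.1 h).symm

end rels

/-! ### The action on `W × ℤ/2` -/

section action

variable (cs : CoxeterSystem M W) {c : B → B → ℤˣ}

/-- change of sign -/
def kappa : Equiv.Perm (W × ZMod 2) where
  toFun p := (p.1, p.2 + 1)
  invFun p := (p.1, p.2 + 1)
  left_inv p := by
    simp only [add_assoc, CharTwo.add_self_eq_zero, add_zero]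
  right_inv p := by
    simp only [add_assoc, CharTwo.add_self_eq_zero, add_zero]

/-- images of the generators -/
noncomputable def act (c : B → B → ℤˣ) : Option B → Equiv.Perm (W × ZMod 2)
  | none => kappa
  | some i => sigma cs c i

theorem lift_fs (i : B) : FreeGroup.lift (act cs c) (fs i) = sigma cs c i := by
  rw [fs, FreeGroup.lift_apply_of]
  rfl

theorem lift_fq : FreeGroup.lift (act cs c) fq = kappa := by
  rw [fq, FreeGroup.lift_apply_of]
  rfl

theorem act_rel (hc : IsSignChoice cs c) (r : FreeGroup (Option B)) (hr : Rel M c r) :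
    FreeGroup.lift (act cs c) r = 1 := by
  have key : ∀ i j : B, i ≠ j → M i j ≠ 0 → ∀ (x : W) (e : ZMod 2),
      ((sigma cs c i * sigma cs c j) ^ M i j) (x, e) =
        (x, e + if c i j = -1 then 1 else 0) := by
    intro i j hij h0 x e
    have h0' : M j i ≠ 0 := by rwa [M.symmetric]
    rw [M.symmetric i j, pow_M_apply, theta_all cs hc hij.symm h0', hc.symm i j hij h0]
  cases hr with
  | s_sq i => rw [map_pow, lift_fs, pow_two, sigma_mul_self]
  | q_sq =>
    rw [map_pow, lift_fq, pow_two]
    ext1 p
    exact kappa.left_inv p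
  | q_comm i =>
    rw [map_mul, map_inv, map_mul, map_mul, lift_fs, lift_fq, mul_inv_eq_one]
    ext1 p
    obtain ⟨x, e⟩ := p
    show (cs.simple i * x, (e + FF cs c i x) + 1) = (cs.simple i * x, (e + 1) + FF cs c i x)
    rw [add_right_comm]
  | one i j hij h0 hs =>
    rw [map_pow, map_mul, lift_fs, lift_fs]
    ext1 p
    obtain ⟨x, e⟩ := p
    rw [key i j hij h0, if_neg (by rw [hs]; decide), add_zero, Equiv.Perm.one_apply]
  | neg i j hij h0 hs =>
    rw [map_mul, map_pow, map_mul, map_inv, lift_fs, lift_fs, lift_fq, mul_inv_eq_one]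
    ext1 p
    obtain ⟨x, e⟩ := p
    rw [key i j hij h0, if_pos hs]
    rfl

/-- the action of `W'` on `W × ℤ/2` -/
noncomputable def Phi (hc : IsSignChoice cs c) : W' M c →* Equiv.Perm (W × ZMod 2) :=
  PresentedGroup.toGroup (f := act cs c) (act_rel cs hc)

theorem Phi_q (hc : IsSignChoice cs c) : Phi cs hc (q' c) = kappa := by
  unfold Phi q'
  rw [PresentedGroup.toGroup.of]
  rfl

theorem q_ne_one (hc : IsSignChoice cs c) : (q' c : W' M c) ≠ 1 := by
  intro h
  have h1 := Phi_q cs hc
  rw [h, map_one] at h1
  have h2 := congrArg (fun f : Equiv.Perm (W × ZMod 2) => (f (1, 0)).2) h1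
  have h3 : (0 : ZMod 2) = 0 + 1 := h2
  exact absurd h3 (by decide)

end action

/-! ### The projection -/

section proj

variable (cs : CoxeterSystem M W) (c : B → B → ℤˣ)

/-- images of the generators in `W` -/
def pgen : Option B → W
  | none => 1
  | some i => cs.simple i

theorem plift_fs (i : B) : FreeGroup.lift (pgen cs) (fs i) = cs.simple i := by
  rw [fs, FreeGroup.lift_apply_of]
  rfl

theorem plift_fq : FreeGroup.lift (pgen cs) fq = 1 := by
  rw [fq, FreeGroup.lift_apply_of]
  rfl

theorem pgen_rel (r : FreeGroup (Option B)) (hr : Rel M c r) :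
    FreeGroup.lift (pgen cs) r = 1 := by
  cases hr with
  | s_sq i => rw [map_pow, plift_fs, cs.simple_sq]
  | q_sq => rw [map_pow, plift_fq, one_pow]
  | q_comm i => rw [map_mul, map_inv, map_mul, map_mul, plift_fs, plift_fq]; group
  | one i j hij h0 hs => rw [map_pow, map_mul, plift_fs, plift_fs, cs.simple_mul_simple_pow]
  | neg i j hij h0 hs =>
    rw [map_mul, map_pow, map_mul, map_inv, plift_fs, plift_fs, plift_fq,
      cs.simple_mul_simple_pow, inv_one, one_mul]

/-- the projection `W' → W` -/
def proj : W' M c →* W := PresentedGroup.toGroup (f := pgen cs) (pgen_rel cs c)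

theorem proj_s (i : B) : proj cs c (s' c i) = cs.simple i := by
  unfold proj s'
  rw [PresentedGroup.toGroup.of]
  rfl

theorem proj_q : proj cs c (q' c) = 1 := by
  unfold proj q'
  rw [PresentedGroup.toGroup.of]
  rfl

theorem proj_surjective : Function.Surjective (proj cs c) := by
  rw [← MonoidHom.range_eq_top, eq_top_iff, ← cs.subgroup_closure_range_simple,
    Subgroup.closure_le]
  rintro _ ⟨i, rfl⟩
  exact ⟨s' c i, proj_s cs c i⟩

instance normal_zpowers : (Subgroup.zpowers (q' c : W' M c)).Normal := by
  constructor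
  intro x hx g
  obtain ⟨k, rfl⟩ := Subgroup.mem_zpowers_iff.1 hx
  have h : Commute (q' c : W' M c) g := q_central c g
  have h2 : g * (q' c) ^ k * g⁻¹ = (q' c) ^ k := by
    rw [← (h.zpow_left k).eq, mul_inv_cancel_right]
  rw [h2]
  exact Subgroup.zpow_mem_zpowers _ k

theorem liftable : M.IsLiftable
    (fun i => QuotientGroup.mk' (Subgroup.zpowers (q' c : W' M c)) (s' c i)) := by
  intro i j
  rw [← map_mul, ← map_pow]
  rw [QuotientGroup.mk'_apply, QuotientGroup.eq_one_iff]
  by_cases hij : i = j
  · subst hij
    rw [M.diagonal, pow_one, s_mul_self]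
    exact one_mem _
  · by_cases h0 : M i j = 0
    · rw [h0, pow_zero]
      exact one_mem _
    · rcases Int.units_eq_one_or (c i j) with hs | hs
      · rw [rel_one c hij h0 hs]
        exact one_mem _
      · rw [rel_neg c hij h0 hs]
        exact Subgroup.mem_zpowers _

/-- the map back to the quotient -/
noncomputable def back : W →* W' M c ⧸ Subgroup.zpowers (q' c : W' M c) :=
  cs.lift ⟨_, liftable c⟩

theorem back_proj (x : W' M c) : back cs c (proj cs c x) = QuotientGroup.mk' _ x := by
  have h : (back cs c).comp (proj cs c) = QuotientGroup.mk' _ := by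
    apply PresentedGroup.ext
    intro i
    rcases i with _ | i
    · show back cs c (proj cs c (q' c)) = QuotientGroup.mk' _ (q' c)
      rw [proj_q, map_one, QuotientGroup.mk'_apply, eq_comm, QuotientGroup.eq_one_iff]
      exact Subgroup.mem_zpowers _
    · show back cs c (proj cs c (s' c i)) = QuotientGroup.mk' _ (s' c i)
      rw [proj_s]
      exact cs.lift_apply_simple (liftable c) i
  exact DFunLike.congr_fun h x

theorem ker_proj : (proj cs c).ker = Subgroup.zpowers (q' c : W' M c) := by
  apply le_antisymm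
  · intro x hx
    have h := back_proj cs c x
    rw [MonoidHom.mem_ker.1 hx, map_one, QuotientGroup.mk'_apply, eq_comm,
      QuotientGroup.eq_one_iff] at h
    exact h
  · rw [Subgroup.zpowers_le, MonoidHom.mem_ker]
    exact proj_q cs c

end proj

/-- **Main theorem.**  For every Coxeter system (of arbitrary rank) and every sign choice, there
are homomorphisms `ι : ℤ/2 → W'` sending the generator to `q` and `π : W' → W` sending each
`s` to `s` and `q` to `1`, and the sequence `1 → ℤ/2 → W' → W → 1` is exact; moreover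
`|ker π| = 2` and `q ≠ 1`. -/
theorem result (cs : CoxeterSystem M W) (c : B → B → ℤˣ) (hc : SignChoice cs c) :
    ∃ (ι : Multiplicative (ZMod 2) →* W' M c) (π : W' M c →* W),
      ι (Multiplicative.ofAdd 1) = q' c ∧ (∀ i, π (s' c i) = cs.simple i) ∧ π (q' c) = 1 ∧
      Function.Injective ι ∧ ι.range = π.ker ∧ Function.Surjective π ∧
      Nat.card π.ker = 2 ∧ (q' c : W' M c) ≠ 1 := by
  have hc' : IsSignChoice cs c := ⟨hc.conj, hc.symm⟩
  have hq := q_ne_one cs hc'
  have hord : orderOf (q' c : W' M c) = 2 := by
    apply orderOf_eq_prime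
    · rw [pow_two, q_mul_self]
    · exact hq
  let f : Multiplicative (ZMod 2) →* W' M c :=
    AddMonoidHom.toMultiplicativeLeft (ZMod.lift 2 ⟨(zmultiplesHom (Additive (W' M c)))
      (Additive.ofMul (q' c)), by
        rw [zmultiplesHom_apply]
        show ((2 : ℕ) : ℤ) • Additive.ofMul (q' c) = 0
        rw [natCast_zsmul, ← ofMul_pow, pow_two, q_mul_self]
        rfl⟩)
  have hf1 : f (Multiplicative.ofAdd 1) = q' c := by
    show (ZMod.lift 2 _ (1 : ZMod 2) : Additive (W' M c)).toMul = q' c
    have : (1 : ZMod 2) = ((1 : ℤ) : ZMod 2) := by norm_num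
    rw [this, ZMod.lift_coe]
    simp
  have hcases : ∀ y : Multiplicative (ZMod 2), y = 1 ∨ y = Multiplicative.ofAdd 1 := by decide
  refine ⟨f, proj cs c, hf1, proj_s cs c, proj_q cs c, ?_, ?_, proj_surjective cs c, ?_, hq⟩
  · rw [injective_iff_map_eq_one]
    intro y hy
    rcases hcases y with h | h
    · exact h
    · rw [h, hf1] at hy
      exact absurd hy hq
  · rw [ker_proj]
    apply le_antisymm
    · rintro _ ⟨y, rfl⟩
      rcases hcases y with h | h
      · rw [h, map_one]
        exact one_mem _
      · rw [h, hf1]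
        exact Subgroup.mem_zpowers _
    · rw [Subgroup.zpowers_le]
      exact ⟨_, hf1⟩
  · rw [ker_proj, Nat.card_zpowers, hord]

end Pool.Agent.Results.MP_07fa45_al.SignExtension
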